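import Mathlib
import Pool.Agent.Lib_MP_88c527.A

/-!
# The exponential sum over primes with phase `2 √p` is large in mean

`S X` is the sum of `exp (2 π i · 2 √p)` over the primes `p < X`. On every interval `[X, 8 X]` with `X`
large, the mean value of `|S|` is at least `√X / (105 log X)`; so no exponent below `1 / 2` is possible,
at no scale.
-/

set_option autoImplicit false

namespace Pool.Agent.Results.MP_88c527_nt.MeanLowerBound

open MeasureTheory Pool.Agent.Lib_MP_88c527

/-- For all large `X` the mean value of `|S|` on `[X, 8 X]` is at least `√X / (105 log X)`;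
consequently, for `α < 1 / 2` and any `C`, for all large `X` some integer `N` in `[X, 8 X + 1]` has
`|S N| > C N ^ α`. -/
theorem result :
    (∃ X₀ : ℝ, ∀ X ≥ X₀,
      Real.sqrt X / (105 * Real.log X) ≤ 1 / (8 * X - X) * ∫ t in X..8 * X, ‖S t‖) ∧
    ∀ α : ℝ, α < 1 / 2 → ∀ C : ℝ, ∃ X₀ : ℝ, ∀ X ≥ X₀, ∃ N : ℕ,
      X ≤ N ∧ (N : ℝ) ≤ 8 * X + 1 ∧ C * (N : ℝ) ^ α < ‖S N‖ := by
  constructor
  · obtain ⟨X₁, hX₁⟩ := mean_S
    refine ⟨max X₁ 2, fun X hX => ?_⟩
    have h1 := hX₁ X ((le_max_left _ _).trans hX)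
    have h2 : 2 ≤ X := (le_max_right _ _).trans hX
    have hX0 : 0 < X := by linarith
    have hlog : 0 < Real.log X := Real.log_pos (by linarith)
    have h3 : Real.sqrt X / (105 * Real.log X) =
        1 / (8 * X - X) * (X * Real.sqrt X / (15 * Real.log X)) := by
      rw [show 8 * X - X = 7 * X by ring]
      field_simp
      norm_num
    rw [h3]
    have h4 : 0 ≤ 1 / (8 * X - X) := by
      rw [show 8 * X - X = 7 * X by ring]
      positivity
    exact mul_le_mul_of_nonneg_left h1 h4
  · intro α hα C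
    obtain ⟨X₁, hX₁⟩ := omega_S α hα C
    refine ⟨X₁, fun X hX => ?_⟩
    obtain ⟨N, h1, h2, h3⟩ := hX₁ X hX
    refine ⟨N, h1, h2, ?_⟩
    unfold S
    rw [Nat.ceil_natCast]
    exact h3

end Pool.Agent.Results.MP_88c527_nt.MeanLowerBound
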